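import Mathlib
import Pool.Agent.HVL.Hull
import Pool.Agent.HVL.FourIneq
import Pool.Agent.HVL.FivePts

/-!
# Polygonal arcs with at most four edges in Euclidean 3-space

The largest volume of the convex hull of a polygonal arc `x 0, x 1, .., x 4` of length at most `1`
is exactly `1 / (72 √3)`.

Upper bound: `vol (hull) ≤ (1/36) ∑ |det (v_i, v_j, v_k)|` over the edge vectors (library `HVL`),
then with `w_i = v_i / √|v_i|` the Cauchy-Schwarz inequality, the identity
`∑ det (w_i, w_j, w_k) ^ 2 = 6 det (∑ w_i w_iᵀ)` and the inequality of the arithmetic and geometric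
means.  Lower bound: the four edges are the directions of the diagonals of a cube.
-/

namespace Pool.Agent.Results.MP_7d89e1_gt.FourEdges

open Pool.Agent.HVL MeasureTheory

/-- The length of the polygonal arc with the vertices `x 0, x 1, x 2, x 3, x 4`. -/
noncomputable def length4 (x : ℕ → E3) : ℝ := ∑ i ∈ Finset.range 4, ‖x (i + 1) - x i‖

/-- The volume of its convex hull. -/
noncomputable def hullVolume4 (x : ℕ → E3) : ENNReal := volume (convexHull ℝ (x '' Set.Iic 4))

theorem result :
    (∀ x : ℕ → E3, hullVolume4 x ≤ ENNReal.ofReal (length4 x ^ 3 / (72 * Real.sqrt 3))) ∧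
    ∃ x : ℕ → E3, length4 x = 1 ∧ hullVolume4 x = ENNReal.ofReal (1 / (72 * Real.sqrt 3)) := by
  have hup : ∀ x : ℕ → E3,
      hullVolume4 x ≤ ENNReal.ofReal (length4 x ^ 3 / (72 * Real.sqrt 3)) := by
    intro x
    refine (hull_volume_le3 4 x).trans (ENNReal.ofReal_le_ofReal ?_)
    have h := four_ineq (fun i : Fin 4 => x (i + 1) - x i)
    have hl : length4 x = ∑ i : Fin 4, ‖x (i + 1) - x i‖ := by
      unfold length4
      rw [Finset.sum_range]
    rw [hl]
    have h3 : (0 : ℝ) < Real.sqrt 3 := Real.sqrt_pos.mpr (by norm_num)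
    calc _ ≤ (1 / (2 * Real.sqrt 3)) * (∑ i : Fin 4, ‖x (i + 1) - x i‖) ^ 3 / 36 := by
          gcongr
      _ = _ := by
          field_simp
          ring
  refine ⟨hup, ?_⟩
  obtain ⟨x, hx, hv⟩ := five_points
  refine ⟨x, hx, le_antisymm ?_ hv⟩
  have h := hup x
  have hx' : length4 x = 1 := hx
  rw [hx', one_pow] at h
  exact h

end Pool.Agent.Results.MP_7d89e1_gt.FourEdges
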