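import Mathlib
import Pool.Agent.HVL.Final

/-!
# The volume of the convex hull of an arc of length 1 in Euclidean 3-space

`IsArc γ`: `γ` is continuous on `[0,1]` and its length (variation) on `[0,1]` is `1`.
`hullVolume γ`: the Lebesgue measure of the convex hull of `γ([0,1])`.
`V3`: the supremum of the volumes of the convex hulls of the arcs of length `1`.

The theorem: `V3` is attained, and `1 / (18 √3 π) ≤ V3 ≤ π / 288`.

Upper bound.  (1) One-point growth (Fubini + the homothety bound for the sections) gives by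
induction, for a polygonal arc with edge vectors `v_1, .., v_N`,
`vol (hull) ≤ (1/36) ∑ |det (v_i, v_j, v_k)|` (sum over all triples of indices).
(2) `∑ |det (v_i, v_j, v_k)| ≤ (π/8) (∑ |v_i|) ^ 3`: the planar inequality
`∑ |det (a_i, a_j)| ≤ (2/π) (∑ |a_i|) ^ 2` in the plane orthogonal to `v_k`, and the positive
semidefiniteness of the kernel `π/4 - sin (x, y)` on the unit sphere, which follows from the
Taylor coefficients of `√(1-x)` and from Fischer's inequality
`∑ ⟪v_i, v_j⟫ ^ (2k) |v_i| ^ (1-2k) |v_j| ^ (1-2k) ≥ (∑ |v_i|) ^ 2 / (2k+1)`.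
Lower bound: one turn of a circular helix.  Existence: Arzelà-Ascoli.
-/

namespace Pool.Agent.Results.MP_7d89e1_gt.HullVolume

open Pool.Agent.HVL MeasureTheory

/-- The number `V_3` of the problem. -/
noncomputable def V3 : ℝ := sSup {v : ℝ | ∃ γ : ℝ → E3, IsArc γ ∧ v = (hullVolume γ).toReal}

theorem result :
    (∃ γ : ℝ → E3, IsArc γ ∧ hullVolume γ = ENNReal.ofReal V3) ∧
    (∀ δ : ℝ → E3, IsArc δ → hullVolume δ ≤ ENNReal.ofReal V3) ∧
    1 / (18 * Real.sqrt 3 * Real.pi) ≤ V3 ∧ V3 ≤ Real.pi / 288 := by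
  obtain ⟨γ, hγ, hmax, hlow, hup⟩ := Pool.Agent.HVL.main
  have hfin : hullVolume γ ≠ ⊤ := ne_top_of_le_ne_top ENNReal.ofReal_ne_top hup
  have hgr : IsGreatest {v : ℝ | ∃ γ : ℝ → E3, IsArc γ ∧ v = (hullVolume γ).toReal}
      (hullVolume γ).toReal := by
    refine ⟨⟨γ, hγ, rfl⟩, ?_⟩
    rintro v ⟨δ, hδ, rfl⟩
    exact ENNReal.toReal_mono hfin (hmax δ hδ)
  have hV : V3 = (hullVolume γ).toReal := hgr.csSup_eq
  have hV' : ENNReal.ofReal V3 = hullVolume γ := by rw [hV, ENNReal.ofReal_toReal hfin]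
  refine ⟨⟨γ, hγ, hV'.symm⟩, fun δ hδ => by rw [hV']; exact hmax δ hδ, ?_, ?_⟩
  · rw [hV]
    exact (ENNReal.ofReal_le_iff_le_toReal hfin).mp hlow
  · rw [hV]
    exact ENNReal.toReal_le_of_le_ofReal (by positivity) hup

end Pool.Agent.Results.MP_7d89e1_gt.HullVolume
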